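import Mathlib
import Pool.Agent.R586.Eul

set_option autoImplicit false

namespace Pool.Agent.Results.MP_f3603a_co.VertexDeletion

open Finset Polynomial Pool.Agent.R586.Eul

/-- `D` is an orientation of the simple graph `G`: every edge of `G` carries exactly one of its two
arcs, and there are no other arcs. -/
def IsOrientation {V : Type*} (D : V → V → Prop) (G : SimpleGraph V) : Prop :=
  (∀ u v, G.Adj u v ↔ (D u v ∨ D v u)) ∧ ∀ u v, ¬ (D u v ∧ D v u)

section lemmas

variable {V : Type*} [Fintype V] [DecidableEq V]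

/-- signed sum of labellings with `n` labels -/
def sg (n : ℕ) (D : V → V → Prop) [DecidableRel D] : ℤ := ∑ σ : V ≃ Fin n, (-1) ^ des D σ

lemma eval_eulerPoly (D : V → V → Prop) [DecidableRel D] :
    (eulerPoly D).eval (-1) = sg (Fintype.card V) D := by
  unfold eulerPoly sg
  rw [Polynomial.eval_finsetSum]
  simp

/-- rotation of the labels -/
def rot {n : ℕ} (σ : V ≃ Fin (n + 1)) : V ≃ Fin (n + 1) := σ.trans (finRotate (n + 1))

omit [Fintype V] in
lemma rot_ext_self (a : V) {n : ℕ} (τ : {b // b ≠ a} ≃ Fin n) : rot (ext a τ) a = 0 := by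
  simp [rot, ext_self]

omit [Fintype V] in
lemma rot_ext_of_ne (a : V) {n : ℕ} (τ : {b // b ≠ a} ≃ Fin n) {b : V} (h : b ≠ a) :
    rot (ext a τ) b = (τ ⟨b, h⟩).succ := by
  simp [rot, ext_of_ne a τ h]

lemma des_rot_ext (D : V → V → Prop) [DecidableRel D] (hD : ∀ v, ¬ D v v) (a : V) {n : ℕ}
    (τ : {b // b ≠ a} ≃ Fin n) : des D (rot (ext a τ)) = ind D a + des (restr D a) τ := by
  classical
  unfold des ind
  rw [← Finset.card_filter_add_card_filter_not (s := univ.filter
    (fun p : V × V => D p.1 p.2 ∧ (rot (ext a τ)) p.2 < (rot (ext a τ)) p.1))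
      (fun p : V × V => p.2 = a)]
  congr 1
  · refine Finset.card_bij' (fun p _ => p.1) (fun u _ => (u, a)) ?_ ?_ ?_ ?_
    · rintro ⟨x, y⟩ hp
      simp only [mem_filter, mem_univ, true_and] at hp ⊢
      rw [← hp.2]; exact hp.1.1
    · intro u hu
      simp only [mem_filter, mem_univ, true_and, and_true] at hu ⊢
      have hua : u ≠ a := by rintro rfl; exact hD _ hu
      refine ⟨hu, ?_⟩
      rw [rot_ext_self, rot_ext_of_ne a τ hua]
      exact Fin.succ_pos _
    · rintro ⟨x, y⟩ hp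
      simp only [mem_filter, mem_univ, true_and] at hp
      simp [hp.2]
    · intro u _
      rfl
  · symm
    refine Finset.card_bij (fun p _ => (p.1.1, p.2.1)) ?_ ?_ ?_
    · rintro ⟨x, y⟩ hp
      simp only [mem_filter, mem_univ, true_and] at hp ⊢
      refine ⟨⟨hp.1, ?_⟩, y.2⟩
      rw [rot_ext_of_ne a τ x.2, rot_ext_of_ne a τ y.2]
      exact Fin.succ_lt_succ_iff.2 hp.2
    · rintro ⟨x, y⟩ _ ⟨x', y'⟩ _ h
      simp only [Prod.mk.injEq] at h
      exact Prod.ext (Subtype.ext h.1) (Subtype.ext h.2)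
    · rintro ⟨x, y⟩ hp
      simp only [mem_filter, mem_univ, true_and] at hp
      have hy : y ≠ a := hp.2
      have hx : x ≠ a := by
        rintro rfl
        have h2 := hp.1.2
        rw [rot_ext_self] at h2
        exact absurd h2 (not_lt.2 (Fin.zero_le _))
      refine ⟨(⟨x, hx⟩, ⟨y, hy⟩), ?_, rfl⟩
      simp only [mem_filter, mem_univ, true_and]
      refine ⟨hp.1.1, ?_⟩
      have h2 := hp.1.2
      rw [rot_ext_of_ne a τ hx, rot_ext_of_ne a τ hy] at h2
      exact Fin.succ_lt_succ_iff.1 h2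

lemma sign_rot (D : V → V → Prop) [DecidableRel D] (hD : ∀ v, ¬ D v v)
    (he : ∀ v, Even (outd D v + ind D v)) {n : ℕ} (σ : V ≃ Fin (n + 1)) :
    ((-1 : ℤ)) ^ des D (rot σ) = (-1) ^ des D σ := by
  obtain ⟨a, ha⟩ : ∃ a, a = σ.symm (Fin.last n) := ⟨_, rfl⟩
  obtain ⟨τ, rfl⟩ := ext_surj a σ (by simp [ha])
  rw [des_rot_ext D hD, des_ext D hD, pow_add, pow_add]
  congr 1
  have h := he a
  rw [Nat.even_add] at h
  rcases Nat.even_or_odd (ind D a) with h1 | h1
  · rw [h1.neg_one_pow, (h.2 h1).neg_one_pow]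
  · have h2 : Odd (outd D a) := by
      rw [← Nat.not_even_iff_odd] at h1 ⊢
      exact fun h3 => h1 (h.1 h3)
    rw [h1.neg_one_pow, h2.neg_one_pow]

/-- signed sum over labellings with `σ v = k` -/
def T {n : ℕ} (D : V → V → Prop) [DecidableRel D] (v : V) (k : Fin (n + 1)) : ℤ :=
  ∑ σ ∈ univ.filter (fun σ : V ≃ Fin (n + 1) => σ v = k), (-1) ^ des D σ

lemma T_rot (D : V → V → Prop) [DecidableRel D] (hD : ∀ v, ¬ D v v)
    (he : ∀ v, Even (outd D v + ind D v)) {n : ℕ} (v : V) (k : Fin (n + 1)) :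
    T D v k = T D v (finRotate (n + 1) k) := by
  unfold T
  refine Finset.sum_bij (fun σ _ => rot σ) ?_ ?_ ?_ ?_
  · intro σ hσ
    simp only [mem_filter, mem_univ, true_and] at hσ ⊢
    simp [rot, hσ]
  · intro σ _ σ' _ h
    have h2 := congrArg (fun e : V ≃ Fin (n + 1) => e.trans (finRotate (n + 1)).symm) h
    simpa [rot, Equiv.trans_assoc] using h2
  · intro σ hσ
    simp only [mem_filter, mem_univ, true_and] at hσ
    refine ⟨σ.trans (finRotate (n + 1)).symm, ?_, ?_⟩
    · simp [hσ]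
    · simp [rot, Equiv.trans_assoc]
  · intro σ _
    exact (sign_rot D hD he σ).symm

lemma T_const (D : V → V → Prop) [DecidableRel D] (hD : ∀ v, ¬ D v v)
    (he : ∀ v, Even (outd D v + ind D v)) {n : ℕ} (v : V) (k : Fin (n + 1)) :
    T D v k = T D v (0 : Fin (n + 1)) := by
  refine Fin.induction rfl (fun i hi => ?_) k
  rw [← hi, T_rot D hD he v i.castSucc]
  simp

lemma sg_eq_T (D : V → V → Prop) [DecidableRel D] (hD : ∀ v, ¬ D v v)
    (he : ∀ v, Even (outd D v + ind D v)) {n : ℕ} (v : V) :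
    sg (n + 1) D = (n + 1) * T D v (Fin.last n) := by
  have h1 : sg (n + 1) D = ∑ k : Fin (n + 1), T D v k := by
    unfold sg T
    rw [Finset.sum_fiberwise]
  rw [h1, Finset.sum_congr rfl (fun k _ => T_const D hD he v k), T_const D hD he v (Fin.last n)]
  simp

lemma T_last (D : V → V → Prop) [DecidableRel D] (hD : ∀ v, ¬ D v v) {n : ℕ} (v : V) :
    T D v (Fin.last n) = (-1) ^ outd D v * sg n (restr D v) := by
  unfold T sg
  rw [sum_last v, Finset.mul_sum]
  refine Finset.sum_congr rfl fun τ _ => ?_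
  rw [des_ext D hD, pow_add]

/-- `|A_D(-1)|` does not depend on the orientation -/
lemma abs_sg_eq (G : SimpleGraph V) (D D' : V → V → Prop) [DecidableRel D] [DecidableRel D']
    (h : IsOrientation D G) (h' : IsOrientation D' G) (n : ℕ) : |sg n D| = |sg n D'| := by
  classical
  set K := (univ.filter (fun p : V × V => D p.1 p.2 ∧ D' p.2 p.1)).card with hK
  have key : ∀ σ : V ≃ Fin n, des D σ + des D' σ = 2 * (univ.filter (fun p : V × V =>
      (D p.1 p.2 ∧ D' p.1 p.2) ∧ σ p.2 < σ p.1)).card + K := by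
    intro σ
    have e1 : des D σ = (univ.filter (fun p : V × V =>
        (D p.1 p.2 ∧ D' p.1 p.2) ∧ σ p.2 < σ p.1)).card + (univ.filter (fun p : V × V =>
        (D p.1 p.2 ∧ D' p.2 p.1) ∧ σ p.2 < σ p.1)).card := by
      unfold des
      rw [← Finset.card_union_of_disjoint]
      · congr 1
        ext p
        simp only [mem_filter, mem_univ, true_and, mem_union]
        constructor
        · rintro ⟨a, b⟩
          rcases (h'.1 p.1 p.2).1 ((h.1 p.1 p.2).2 (Or.inl a)) with c | c
          · exact Or.inl ⟨⟨a, c⟩, b⟩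
          · exact Or.inr ⟨⟨a, c⟩, b⟩
        · rintro (⟨⟨a, _⟩, b⟩ | ⟨⟨a, _⟩, b⟩)
          · exact ⟨a, b⟩
          · exact ⟨a, b⟩
      · rw [Finset.disjoint_filter]
        rintro p _ ⟨⟨_, c⟩, _⟩ ⟨⟨_, d⟩, _⟩
        exact h'.2 _ _ ⟨c, d⟩
    have e2 : des D' σ = (univ.filter (fun p : V × V =>
        (D p.1 p.2 ∧ D' p.1 p.2) ∧ σ p.2 < σ p.1)).card + (univ.filter (fun p : V × V =>
        (D p.1 p.2 ∧ D' p.2 p.1) ∧ ¬ σ p.2 < σ p.1)).card := by
      have e3 : (univ.filter (fun p : V × V =>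
        (D p.1 p.2 ∧ D' p.2 p.1) ∧ ¬ σ p.2 < σ p.1)).card = (univ.filter (fun p : V × V =>
        (D p.2 p.1 ∧ D' p.1 p.2) ∧ σ p.2 < σ p.1)).card := by
        refine Finset.card_bij (fun p _ => (p.2, p.1)) ?_ ?_ ?_
        · rintro ⟨x, y⟩ hp
          simp only [mem_filter, mem_univ, true_and] at hp ⊢
          refine ⟨hp.1, ?_⟩
          have hne : x ≠ y := by
            rintro rfl
            exact h.2 _ _ ⟨hp.1.1, hp.1.1⟩
          exact lt_of_le_of_ne (not_lt.1 hp.2) (fun hh => hne (σ.injective hh))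
        · rintro ⟨x, y⟩ _ ⟨x', y'⟩ _ hh
          simp only [Prod.mk.injEq] at hh ⊢
          exact ⟨hh.2, hh.1⟩
        · rintro ⟨x, y⟩ hp
          simp only [mem_filter, mem_univ, true_and] at hp
          refine ⟨(y, x), ?_, rfl⟩
          simp only [mem_filter, mem_univ, true_and]
          exact ⟨hp.1, not_lt.2 hp.2.le⟩
      rw [e3]
      unfold des
      rw [← Finset.card_union_of_disjoint]
      · congr 1
        ext p
        simp only [mem_filter, mem_univ, true_and, mem_union]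
        constructor
        · rintro ⟨a, b⟩
          rcases (h.1 p.1 p.2).1 ((h'.1 p.1 p.2).2 (Or.inl a)) with c | c
          · exact Or.inl ⟨⟨c, a⟩, b⟩
          · exact Or.inr ⟨⟨c, a⟩, b⟩
        · rintro (⟨⟨_, a⟩, b⟩ | ⟨⟨_, a⟩, b⟩)
          · exact ⟨a, b⟩
          · exact ⟨a, b⟩
      · rw [Finset.disjoint_filter]
        rintro p _ ⟨⟨c, _⟩, _⟩ ⟨⟨d, _⟩, _⟩
        exact h.2 _ _ ⟨c, d⟩
    have e4 : K = (univ.filter (fun p : V × V =>
        (D p.1 p.2 ∧ D' p.2 p.1) ∧ σ p.2 < σ p.1)).card + (univ.filter (fun p : V × V =>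
        (D p.1 p.2 ∧ D' p.2 p.1) ∧ ¬ σ p.2 < σ p.1)).card := by
      rw [hK, ← Finset.card_filter_add_card_filter_not (s := univ.filter
        (fun p : V × V => D p.1 p.2 ∧ D' p.2 p.1)) (fun p : V × V => σ p.2 < σ p.1)]
      simp only [Finset.filter_filter]
    omega
  have hs : ∀ σ : V ≃ Fin n, ((-1 : ℤ)) ^ des D σ = (-1) ^ K * (-1) ^ des D' σ := by
    intro σ
    have h1 := congrArg (fun m : ℕ => ((-1 : ℤ)) ^ m) (key σ)
    simp only [pow_add, pow_mul, neg_one_sq, one_pow, one_mul] at h1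
    have h2 : ((-1 : ℤ)) ^ des D' σ * (-1) ^ des D' σ = 1 := by
      rw [← mul_pow]; simp
    calc ((-1 : ℤ)) ^ des D σ = ((-1 : ℤ)) ^ des D σ * (((-1 : ℤ)) ^ des D' σ * (-1) ^ des D' σ) := by
          rw [h2, mul_one]
      _ = _ := by rw [← mul_assoc, h1]
  have : sg n D = (-1) ^ K * sg n D' := by
    unfold sg
    rw [Finset.mul_sum]
    exact Finset.sum_congr rfl fun σ _ => hs σ
  rw [this, abs_mul, abs_pow, abs_neg, abs_one, one_pow, one_mul]

end lemmas

/-- **Vertex-deletion identity for `ν` on Eulerian graphs.**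
Let `G` be a finite simple graph with at least one vertex, all of whose degrees are even. Let `D` be
any orientation of `G` and, for every vertex `v`, let `E v` be any orientation of the graph `G - v`
(the subgraph of `G` induced on the vertices different from `v`). Then
`|A_D(-1)| = ∑_v |A_{E v}(-1)|`, i.e. `ν(G) = ∑_v ν(G - v)`. -/
theorem result {V : Type} [Fintype V] [DecidableEq V] [Nonempty V]
    (G : SimpleGraph V) [DecidableRel G.Adj] (hG : ∀ v, Even (G.degree v))
    (D : V → V → Prop) [DecidableRel D] (hD : IsOrientation D G)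
    (E : ∀ v : V, {u : V // u ≠ v} → {u : V // u ≠ v} → Prop) [∀ v, DecidableRel (E v)]
    (hE : ∀ v, IsOrientation (E v) (G.comap (Subtype.val : {u : V // u ≠ v} → V))) :
    |(eulerPoly D).eval (-1)| = ∑ v : V, |(eulerPoly (E v)).eval (-1)| := by
  classical
  have hirr : ∀ v, ¬ D v v := fun v h => hD.2 v v ⟨h, h⟩
  have heven : ∀ v, Even (outd D v + ind D v) := by
    intro v
    have : outd D v + ind D v = G.degree v := by
      unfold outd ind
      rw [← Finset.card_union_of_disjoint]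
      · rw [← SimpleGraph.card_neighborFinset_eq_degree]
        congr 1
        ext u
        simp only [mem_union, mem_filter, mem_univ, true_and, SimpleGraph.mem_neighborFinset]
        exact (hD.1 v u).symm
      · rw [Finset.disjoint_filter]
        intro u _ h1 h2
        exact hD.2 _ _ ⟨h1, h2⟩
    rw [this]; exact hG v
  obtain ⟨n, hn⟩ : ∃ n, Fintype.card V = n + 1 :=
    ⟨Fintype.card V - 1, (Nat.succ_pred_eq_of_pos Fintype.card_pos).symm⟩
  have hcard : ∀ v : V, Fintype.card {u : V // u ≠ v} = n := by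
    intro v
    have := Fintype.card_subtype_compl (fun u : V => u = v)
    rw [Fintype.card_subtype_eq] at this
    simp only [ne_eq]
    rw [this, hn]; rfl
  have h1 : ∀ v : V, |(eulerPoly (E v)).eval (-1)| = |T D v (Fin.last n)| := by
    intro v
    rw [eval_eulerPoly, hcard v, T_last D hirr v, abs_mul, abs_pow, abs_neg, abs_one, one_pow,
      one_mul]
    refine abs_sg_eq (G.comap (Subtype.val : {u : V // u ≠ v} → V)) _ _ (hE v) ⟨?_, ?_⟩ n
    · intro x y
      exact hD.1 x.1 y.1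
    · intro x y
      exact hD.2 x.1 y.1
  rw [Finset.sum_congr rfl (fun v _ => h1 v), eval_eulerPoly, hn]
  have h2 : ∀ v : V, |sg (n + 1) D| = (n + 1 : ℤ) * |T D v (Fin.last n)| := by
    intro v
    rw [sg_eq_T D hirr heven v, abs_mul]
    congr 1
  have h3 : (n + 1 : ℤ) * |sg (n + 1) D| = (n + 1 : ℤ) * ∑ v : V, |T D v (Fin.last n)| := by
    rw [Finset.mul_sum, ← Finset.sum_congr rfl (fun v _ => h2 v), Finset.sum_const,
      Finset.card_univ, hn]
    simp
  exact mul_left_cancel₀ (by positivity) h3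

end Pool.Agent.Results.MP_f3603a_co.VertexDeletion
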